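import Pool.Agent.Lib.DN.F4.Ctr

/-!
# Theorem DN, part F: the generic form of `S_FH`

`c³ = 2`, `γ = c^k`, `k = 1, 2`; the coefficients of `u` are divisible by `γ`, the leading one exactly.
Then the same holds for `T = T(u)` (estimate of the logarithm), and `X(u) - e`, `e` the `x`-coordinate of
a point of order two, is not the square of a quotient of bounded series.
-/

set_option autoImplicit false

namespace DN.F4

open PowerSeries DI.F4

/-- The relations between `u`, `T = T(u)`, `W = W(u)`: the curve `y² + a x y + b y = x³`, `x = T/W`,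
`y = -1/W`, and `dx/(2 y + a x + b) = du`. -/
structure TWr {R : Type} [CommRing R] (a b : R) (u T W : PowerSeries R) : Prop where
  curve : W = T ^ 3 + C a * T * W + C b * W ^ 2
  diff : derivative R T * W - T * derivative R W = (C a * T - 2 + C b * W) * W * derivative R u
  T0 : coeff 0 T = 0
  T1 : coeff 1 T = coeff 1 u
  W0 : coeff 0 W = 0

section val

variable {Om : Type} [Field Om] [CharZero Om] {V : ValuationSubring Om}

/-- a unit plus a non-unit -/
theorem unit_add {x m : Om} (hx : x ∈ V) (hx0 : x ≠ 0) (hxi : x⁻¹ ∈ V) (hm : m ∈ V)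
    (hmi : m = 0 ∨ m⁻¹ ∉ V) : x + m ≠ 0 ∧ (x + m)⁻¹ ∈ V := by
  obtain ⟨x', rfl⟩ : ∃ p : V, (p : Om) = x := ⟨⟨_, hx⟩, rfl⟩
  obtain ⟨m', rfl⟩ : ∃ p : V, (p : Om) = m := ⟨⟨_, hm⟩, rfl⟩
  have hux : IsUnit x' := IsUnit.of_mul_eq_one ⟨(x' : Om)⁻¹, hxi⟩ (Subtype.ext (mul_inv_cancel₀ hx0))
  have hum : ¬ IsUnit m' := by
    rintro ⟨u, hu⟩
    have h4 : ((u : V) : Om) * (((u⁻¹ : Vˣ) : V) : Om) = 1 := congrArg V.subtype (Units.mul_inv u)
    rw [hu] at h4
    rcases hmi with h | h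
    · rw [h, zero_mul] at h4
      exact zero_ne_one h4
    · apply h
      rw [← eq_inv_of_mul_eq_one_right h4]
      exact Subtype.mem _
  have hs : IsUnit (x' + m') := by
    by_contra h
    have h1 : x' + m' ∈ IsLocalRing.maximalIdeal V := (IsLocalRing.mem_maximalIdeal _).2 h
    have h2 : m' ∈ IsLocalRing.maximalIdeal V := (IsLocalRing.mem_maximalIdeal _).2 hum
    have h3 : x' ∈ IsLocalRing.maximalIdeal V := by
      have := Ideal.sub_mem _ h1 h2
      rwa [add_sub_cancel_right] at this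
    exact (IsLocalRing.mem_maximalIdeal _).1 h3 hux
  obtain ⟨u, hu⟩ := hs
  have h4 : ((u : V) : Om) * (((u⁻¹ : Vˣ) : V) : Om) = 1 := congrArg V.subtype (Units.mul_inv u)
  rw [hu] at h4
  refine ⟨fun h => ?_, ?_⟩
  · rw [show ((x' + m' : V) : Om) = (x' : Om) + m' from rfl, h, zero_mul] at h4
    exact zero_ne_one h4
  · rw [show (x' : Om) + m' = ((x' + m' : V) : Om) from rfl, ← eq_inv_of_mul_eq_one_right h4]
    exact Subtype.mem _

theorem odd_inv (h2 : (2 : Om)⁻¹ ∉ V) {n : ℕ} (hn : ¬ 2 ∣ n) : (n : Om)⁻¹ ∈ V := by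
  obtain ⟨j, rfl⟩ : ∃ j, n = 1 + 2 * j := ⟨n / 2, by omega⟩
  have h1 := (unit_add (V := V) (x := 1) (m := 2 * j) (one_mem V) one_ne_zero
    (by rw [inv_one]; exact one_mem V) (mul_mem (by exact_mod_cast natCast_mem V 2)
      (natCast_mem V j)) ?_).2
  · push_cast
    exact h1
  · rcases Nat.eq_zero_or_pos j with h | h
    · left
      rw [h]
      push_cast
      ring
    · right
      intro h3
      apply h2
      have h4 : (2 : Om)⁻¹ = j * (2 * (j : Om))⁻¹ := by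
        have : (j : Om) ≠ 0 := by exact_mod_cast h.ne'
        field_simp
      rw [h4]
      exact mul_mem (natCast_mem V j) h3

variable {c : Om}

omit [CharZero Om] in
theorem c_mem (h2 : (2 : Om)⁻¹ ∉ V) (hc : c ^ 3 = 2) : c ∈ V := by
  by_contra h
  have h1 := (V.mem_or_inv_mem c).resolve_left h
  apply h2
  rw [← hc, ← inv_pow]
  exact pow_mem h1 3

omit [CharZero Om] in
theorem c_inv (h2 : (2 : Om)⁻¹ ∉ V) (hc : c ^ 3 = 2) : c⁻¹ ∉ V := by
  intro h1
  apply h2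
  rw [← hc, ← inv_pow]
  exact pow_mem h1 3

private theorem two_pow (j : ℕ) : 3 * j ≤ 2 ^ j + 2 := by
  induction j with
  | zero => omega
  | succ j ih =>
    rcases Nat.lt_or_ge j 2 with h | h
    · interval_cases j <;> norm_num
    · have h1 : 2 ^ 2 ≤ 2 ^ j := Nat.pow_le_pow_right (by norm_num) h
      rw [pow_succ]
      omega

/-- the estimate of the logarithm -/
theorem est (h2 : (2 : Om)⁻¹ ∉ V) (hc : c ^ 3 = 2) {k m : ℕ} (hk : 1 ≤ k) (hm : 1 ≤ m) :
    2 * (c ^ k) ^ (m - 1) / m ∈ V := by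
  obtain ⟨j, m', hm', rfl⟩ := Nat.exists_eq_pow_mul_and_not_dvd (show m ≠ 0 by omega) 2
    (by norm_num)
  have hc0 : c ≠ 0 := by
    rintro rfl
    rw [zero_pow (by norm_num)] at hc
    exact two_ne_zero hc.symm
  have hm0 : m' ≠ 0 := by
    rintro rfl
    exact hm' (dvd_zero 2)
  have hm1 : (m' : Om) ≠ 0 := by exact_mod_cast hm0
  have h3 : 3 * j ≤ 3 + k * (2 ^ j * m' - 1) := by
    have h4 := two_pow j
    have h5 : 2 ^ j * 1 ≤ 2 ^ j * m' := Nat.mul_le_mul_left _ (by omega)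
    have h6 : 1 * (2 ^ j * m' - 1) ≤ k * (2 ^ j * m' - 1) := Nat.mul_le_mul_right _ hk
    omega
  have h4 : 2 * (c ^ k) ^ (2 ^ j * m' - 1) / ((2 ^ j * m' : ℕ) : Om) =
      c ^ (3 + k * (2 ^ j * m' - 1) - 3 * j) * (m' : Om)⁻¹ := by
    have e1 : c ^ (3 + k * (2 ^ j * m' - 1)) =
        c ^ (3 + k * (2 ^ j * m' - 1) - 3 * j) * (c ^ 3) ^ j := by
      rw [← pow_mul, ← pow_add, Nat.sub_add_cancel h3]
    have e2 : c ^ (3 + k * (2 ^ j * m' - 1)) = 2 * (c ^ k) ^ (2 ^ j * m' - 1) := by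
      rw [pow_add, pow_mul, hc]
    rw [← e2, e1, hc]
    push_cast
    have : (2 : Om) ^ j ≠ 0 := pow_ne_zero _ two_ne_zero
    field_simp
  rw [h4]
  exact mul_mem (pow_mem (c_mem h2 hc) _) (odd_inv h2 hm')

end val

section om

variable {Om : Type} [Field Om] [CharZero Om] {O : Subring Om}

/-- the coefficients of the invariant differential are divisible by two -/
theorem omS_two {a b : Om} (ha : a / 2 ∈ O) (hb : b ∈ O) {n : ℕ} (hn : 1 ≤ n) :
    coeff n (omS a b) / 2 ∈ O := by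
  have haO : a ∈ O := by
    have : a = 2 * (a / 2) := by ring
    rw [this]
    exact O.mul_mem (by exact_mod_cast natCast_mem O 2) ha
  have h1 : omS a b = 1 + 2 * (omS a b * (C (a / 2) * X + C b * (X ^ 3 * wS a b))) := by
    have h2 := PS_omS a b
    have h3 : (C a : Om⟦X⟧) = 2 * C (a / 2) := by
      rw [← map_ofNat C 2, ← map_mul]
      congr 1
      ring
    unfold PS at h2
    linear_combination h2 + X * omS a b * h3
  have h4 : In O (omS a b * (C (a / 2) * X + C b * (X ^ 3 * wS a b))) :=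
    (In.omS haO hb).mul (((In.C ha).mul In.X).add ((In.C hb).mul ((In.X.pow 3).mul
      (In.wS haO hb))))
  have h5 : coeff n (omS a b) = 2 * coeff n (omS a b * (C (a / 2) * X + C b * (X ^ 3 * wS a b))) := by
    have h6 := congrArg (coeff n) h1
    rw [map_add, coeff_one, if_neg (by omega), zero_add, ← map_ofNat C 2, coeff_C_mul] at h6
    exact h6
  rw [h5, mul_div_cancel_left₀ _ (two_ne_zero)]
  exact h4 n

end om

/-- **FH**, generic form. -/
theorem fh {Om : Type} [Field Om] [CharZero Om] {V : ValuationSubring Om} {S : Subfield Om}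
    {ϖ : Om} (hU : Unif V S ϖ) (h2 : (2 : Om)⁻¹ ∉ V) {c a b e r : Om} {k : ℕ}
    (hk : k = 1 ∨ k = 2) (hc : c ^ 3 = 2) (cS : c ∈ S) (ha : a / 2 ∈ V) (aS : a ∈ S) (hb : b ∈ V)
    (bS : b ∈ S) (hr : r ∈ V) (hr0 : r ≠ 0) (hri : r⁻¹ ∈ V) (rS : r ∈ S)
    (hre : r ^ 2 = -(c ^ 2 * e)) {u T W ψ Q1 Q2 : Om⟦X⟧}
    (uV : ∀ n, coeff n u / c ^ k ∈ V) (uS : ∀ n, coeff n u ∈ S) (u0 : coeff 0 u = 0)
    (u1 : coeff 1 u ≠ 0) (u1' : (coeff 1 u / c ^ k)⁻¹ ∈ V) (hT : TWr a b u T W)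
    (hψ : ψ ^ 2 * W = X ^ 2 * (T - C e * W)) (hQ2 : Q2 ≠ 0) (hQ : Q2 * ψ = Q1)
    (Q1S : ∀ n, coeff n Q1 ∈ S) (Q2S : ∀ n, coeff n Q2 ∈ S)
    (Q1V : ∀ n, coeff n Q1 ∈ V) (Q2V : ∀ n, coeff n Q2 ∈ V) : False := by
  have hc0 : c ≠ 0 := by
    rintro rfl
    rw [zero_pow (by norm_num)] at hc
    exact two_ne_zero hc.symm
  have hcV := c_mem h2 hc
  have hcI := c_inv h2 hc
  have hk1 : 1 ≤ k := by omega
  have hγ0 : c ^ k ≠ 0 := pow_ne_zero k hc0
  have haV : a ∈ V := by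
    have : a = 2 * (a / 2) := by ring
    rw [this]
    exact mul_mem (by exact_mod_cast natCast_mem V 2) ha
  have hT0 : constantCoeff T = 0 := by
    rw [← coeff_zero_eq_constantCoeff_apply]
    exact hT.T0
  have hW0 : constantCoeff W = 0 := by
    rw [← coeff_zero_eq_constantCoeff_apply]
    exact hT.W0
  have hu0 : constantCoeff u = 0 := by
    rw [← coeff_zero_eq_constantCoeff_apply]
    exact u0
  have hTne : T ≠ 0 := by
    intro h
    have := hT.T1
    rw [h, map_zero] at this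
    exact u1 this.symm
  obtain ⟨hlg, hWT⟩ := lg_of_diff hT0 hW0 hu0 hTne hT.curve hT.diff
  -- the series `T1`
  obtain ⟨T1, hT1⟩ : ∃ T1, T1 = C (c ^ k)⁻¹ * T := ⟨_, rfl⟩
  have hT1' : T = C (c ^ k) * T1 := by
    rw [hT1, ← mul_assoc, ← map_mul, mul_inv_cancel₀ hγ0, map_one, one_mul]
  have hT10 : constantCoeff T1 = 0 := by
    rw [hT1, map_mul, hT0, mul_zero]
  obtain ⟨ℓ, hℓ⟩ : ∃ ℓ : Om⟦X⟧, ℓ = mk fun m => coeff m (lgS a b) * (c ^ k) ^ (m - 1) := ⟨_, rfl⟩
  have hℓ0 : constantCoeff ℓ = 0 := by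
    rw [← coeff_zero_eq_constantCoeff_apply, hℓ, coeff_mk, coeff_zero_eq_constantCoeff_apply,
      lgS_const, zero_mul]
  have hℓ1 : coeff 1 ℓ = 1 := by
    rw [hℓ, coeff_mk, coeff_one_lgS, Nat.sub_self, pow_zero, mul_one]
  have hℓV : In V.toSubring ℓ := by
    intro m
    rcases Nat.eq_zero_or_pos m with h | h
    · rw [h, coeff_zero_eq_constantCoeff_apply, hℓ0]
      exact V.zero_mem
    · rcases Nat.lt_or_ge 1 m with h' | h'
      · have h3 : coeff m ℓ = coeff (m - 1) (omS a b) / 2 * (2 * (c ^ k) ^ (m - 1) / m) := by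
          rw [hℓ, coeff_mk, lgS, coeff_mk]
          ring
        rw [h3]
        exact V.mul_mem _ _ (omS_two (O := V.toSubring) ha hb (by omega)) (est h2 hc hk1 h)
      · have h4 : m = 1 := by omega
        rw [h4, hℓ1]
        exact V.one_mem
  have hcs : cs ℓ T1 = C (c ^ k)⁻¹ * u := by
    ext n
    rw [coeff_C_mul, ← hlg, coeff_cs hT10, coeff_cs hT0, Finset.mul_sum]
    refine Finset.sum_congr rfl fun d _ => ?_
    rw [hT1', mul_pow, ← map_pow, coeff_C_mul, hℓ, coeff_mk]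
    rcases Nat.eq_zero_or_pos d with h | h
    · rw [h, coeff_zero_eq_constantCoeff_apply, lgS_const]
      ring
    · obtain ⟨d', rfl⟩ : ∃ d', d = d' + 1 := ⟨d - 1, by omega⟩
      rw [Nat.add_sub_cancel, pow_succ (c ^ k) d']
      field_simp
  have hT1V : In V.toSubring T1 := by
    refine In.of_cs hℓV hℓ0 hℓ1 hT10 ?_
    rw [hcs]
    intro n
    rw [coeff_C_mul]
    have := uV n
    rw [div_eq_inv_mul] at this
    exact this
  have hTS : In S.toSubring T := by
    refine In.of_cs (f := lgS a b) ?_ (lgS_const a b) (coeff_one_lgS a b) hT0 ?_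
    · intro m
      rw [lgS, coeff_mk]
      have h3 : coeff (m - 1) (omS a b) ∈ S := In.omS (O := S.toSubring) aS bS _
      have h4 : coeff (m - 1) (omS a b) / m ∈ S := div_mem h3 (natCast_mem S m)
      exact h4
    · rw [hlg]
      exact uS
  have hTV : In V.toSubring T := by
    rw [hT1']
    exact (In.C (pow_mem hcV k)).mul hT1V
  have hwV : In V.toSubring (cs (wS a b) T) := (In.wS (O := V.toSubring) haV hb).cs hTV hT0
  have hc11 : coeff 1 T1 = coeff 1 u / c ^ k := by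
    rw [hT1, coeff_C_mul, hT.T1]
    ring
  -- the series `t = T / X`
  obtain ⟨t, ht⟩ := (X_dvd_iff).2 hT0
  have htc : ∀ n, coeff n t = coeff (n + 1) T := by
    intro n
    rw [ht, coeff_succ_X_mul]
  have hWne : W ≠ 0 := by
    rw [hWT]
    refine mul_ne_zero (pow_ne_zero 3 hTne) ?_
    intro h
    have h3 : constantCoeff (cs (wS a b) T) = 1 := by
      rw [constantCoeff_cs hT0, wS_const]
    rw [h, map_zero] at h3
    exact zero_ne_one h3
  have hsq : (t * ψ) ^ 2 = 1 - C a * T - C b * W - C e * T ^ 2 := by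
    apply mul_right_cancel₀ hWne
    have h3 := hT.curve
    have h4 : (t * ψ) ^ 2 * W = T ^ 2 * (T - C e * W) := by
      rw [ht] at hψ ⊢
      linear_combination t ^ 2 * hψ
    rw [h4]
    linear_combination -h3
  -- `δ`
  obtain ⟨δ, hδ⟩ : ∃ δ, δ = c ^ (k - 1) := ⟨_, rfl⟩
  have hδ0 : δ ≠ 0 := by
    rw [hδ]
    exact pow_ne_zero _ hc0
  have hγδ : c ^ k = c * δ := by
    rw [hδ, ← pow_succ']
    congr 1
    omega
  have hδ1 : 2 / δ ∈ V := by
    rw [hδ, ← hc]
    rcases hk with rfl | rfl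
    · rw [Nat.sub_self, pow_zero, div_one]
      exact pow_mem hcV 3
    · have h3 : c ^ 3 / c ^ (2 - 1) = c ^ 2 := by
        rw [show 2 - 1 = 1 from rfl, pow_one]
        field_simp
      rw [h3]
      exact pow_mem hcV 2
  have hδ2 : δ / 2 ∉ V := by
    rw [hδ]
    rcases hk with rfl | rfl
    · rw [Nat.sub_self, pow_zero, one_div]
      exact h2
    · intro h3
      apply h2
      have h4 : (2 : Om)⁻¹ = c * (c ^ (2 - 1) / 2) ^ 2 := by
        rw [← hc, show 2 - 1 = 1 from rfl, pow_one]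
        field_simp
      rw [h4]
      exact mul_mem hcV (pow_mem h3 2)
  -- `s` and `y`
  obtain ⟨s, hs⟩ : ∃ s, s = 1 + C (r * δ) * T1 := ⟨_, rfl⟩
  obtain ⟨y, hy⟩ : ∃ y, y = C (r + a / 2 * c) * T1 +
    C (b * δ ^ 2) * (T1 ^ 3 * cs (wS a b) T) := ⟨_, rfl⟩
  have hδV : δ ∈ V := by
    rw [hδ]
    exact pow_mem hcV _
  have vs : In V.toSubring s := by
    rw [hs]
    exact In.one.add ((In.C (mul_mem hr hδV)).mul hT1V)
  have vy : In V.toSubring y := by
    rw [hy]
    exact ((In.C (add_mem hr (mul_mem ha hcV))).mul hT1V).add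
      ((In.C (mul_mem hb (pow_mem hδV 2))).mul ((hT1V.pow 3).mul hwV))
  have hsy : 1 - C a * T - C b * W - C e * T ^ 2 = s ^ 2 - 2 * C δ * y := by
    have e1 : (C c : Om⟦X⟧) ^ 3 = 2 := by
      rw [← map_pow, hc, map_ofNat]
    have e2 : (C r : Om⟦X⟧) ^ 2 = -(C c ^ 2 * C e) := by
      rw [← map_pow, hre, map_neg, map_mul, map_pow]
    have e3 : 2 * (C (a / 2) : Om⟦X⟧) = C a := by
      rw [← map_ofNat C 2, ← map_mul]
      congr 1
      ring
    have e4 : T = C c * C δ * T1 := by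
      rw [hT1', hγδ, map_mul]
    rw [hWT]
    obtain ⟨w, hw⟩ : ∃ w, w = cs (wS a b) T := ⟨_, rfl⟩
    rw [hs, hy, ← hw, e4]
    simp only [map_mul, map_add, map_pow]
    linear_combination (-(C b * C δ ^ 3 * T1 ^ 3 * w)) * e1 - (C δ ^ 2 * T1 ^ 2) * e2 +
      (C c * C δ * T1) * e3
  have hy1 : coeff 1 y = (r + a / 2 * c) * (coeff 1 u / c ^ k) := by
    obtain ⟨t1, ht1⟩ := (X_dvd_iff).2 hT10
    have h3 : T1 ^ 3 * cs (wS a b) T = X ^ 2 * (X * (t1 ^ 3 * cs (wS a b) T)) := by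
      have h4 : T1 ^ 3 = (X * t1) ^ 3 := by rw [← ht1]
      rw [h4]
      ring
    rw [hy, map_add, coeff_C_mul, coeff_C_mul, h3, coeff_X_pow_mul', if_neg (by norm_num),
      mul_zero, add_zero, hc11]
  have hra := unit_add (V := V) hr hr0 hri (m := a / 2 * c) (mul_mem ha hcV) (by
    rcases eq_or_ne (a / 2) 0 with h | h
    · left
      rw [h, zero_mul]
    · right
      intro h3
      apply hcI
      have h4 : c⁻¹ = a / 2 * (a / 2 * c)⁻¹ := by
        rw [mul_inv, ← mul_assoc, mul_inv_cancel₀ h, one_mul]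
      rw [h4]
      exact mul_mem ha h3)
  have hu10 : coeff 1 u / c ^ k ≠ 0 := div_ne_zero u1 hγ0
  have sS : In S.toSubring s := by
    rw [hs, hT1]
    have hδS : δ ∈ S := by
      rw [hδ]
      exact pow_mem cS _
    have hγS : (c ^ k)⁻¹ ∈ S := inv_mem (pow_mem cS k)
    exact In.one.add ((In.C (mul_mem rS hδS)).mul ((In.C hγS).mul hTS))
  have tS : In S.toSubring t := fun n => by
    rw [htc]
    exact hTS _
  have tV : In V.toSubring t := fun n => by
    rw [htc]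
    exact hTV _
  have iQ1 : In S.toSubring Q1 := Q1S
  have iQ2 : In S.toSubring Q2 := Q2S
  have wQ1 : In V.toSubring Q1 := Q1V
  have wQ2 : In V.toSubring Q2 := Q2V
  refine con hU h2 hδ0 hδ1 hδ2 (y := y) (s := s) (Q1 := t * Q1) (Q2 := Q2) vy vs ?_ ?_
    ((tS.mul iQ1).sub (sS.mul iQ2)) Q2S ((tV.mul wQ1).sub (vs.mul wQ2)) Q2V hQ2 ?_
  · rw [hy1]
    exact mul_ne_zero hra.1 hu10
  · rw [hy1, mul_inv]
    exact mul_mem hra.2 u1'
  · rw [← hsy, ← hsq, ← hQ]
    ring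

end DN.F4
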