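import Pool.Agent.Lib.DN.F4.Defs
import Pool.Agent.Lib.DI.F4.NormQ

/-!
# Theorem DN, part F: the final contradiction

If `y` is integral with a unit as coefficient of index one, and `2/δ` is in the maximal ideal, then
`s² - 2 δ y` is not the square of a quotient of bounded power series.
-/

set_option autoImplicit false

namespace DN.F4

open PowerSeries DI.F4

/-- lifting of series with coefficients in `V` -/
private theorem Con_lift {Om : Type} [Field Om] (V : ValuationSubring Om) (f : Om⟦X⟧)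
    (hf : ∀ n, coeff n f ∈ V) : ∃ g : V⟦X⟧, map V.subtype g = f := by
  refine ⟨mk fun n => ⟨coeff n f, hf n⟩, ?_⟩
  ext n
  rw [coeff_map, coeff_mk]
  rfl

private theorem Con_unit {Om : Type} [Field Om] (V : ValuationSubring Om) {x : V}
    (h0 : (x : Om) ≠ 0) (h : (x : Om)⁻¹ ∈ V) : IsUnit x :=
  IsUnit.of_mul_eq_one ⟨(x : Om)⁻¹, h⟩ (Subtype.ext (mul_inv_cancel₀ h0))

private theorem Con_res_ne {Om : Type} [Field Om] (V : ValuationSubring Om) {x : V}
    (h0 : (x : Om) ≠ 0) (h : (x : Om)⁻¹ ∈ V) : IsLocalRing.residue V x ≠ 0 := by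
  intro h1
  rw [IsLocalRing.residue_eq_zero_iff] at h1
  exact (IsLocalRing.mem_maximalIdeal x).1 h1 (Con_unit V h0 h)

private theorem Con_res_zero {Om : Type} [Field Om] (V : ValuationSubring Om) {x : V}
    (h : (x : Om)⁻¹ ∉ V) : IsLocalRing.residue V x = 0 := by
  rw [IsLocalRing.residue_eq_zero_iff, IsLocalRing.mem_maximalIdeal]
  rintro ⟨u, rfl⟩
  apply h
  have h1 : ((u : V) : Om)⁻¹ = ((u⁻¹ : Vˣ) : V) := by
    have h2 : ((u : V) : Om) * (((u⁻¹ : Vˣ) : V) : Om) = 1 := by
      exact congrArg V.subtype (Units.mul_inv u)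
    exact (eq_inv_of_mul_eq_one_right h2).symm
  rw [h1]
  exact Subtype.mem _

private theorem deriv_sq {F : Type} [Field F] (h2 : (2 : F⟦X⟧) = 0) (f : F⟦X⟧) :
    derivative F (f ^ 2) = 0 := by
  rw [Derivation.leibniz_pow]
  simp only [smul_eq_mul, nsmul_eq_mul]
  push_cast
  linear_combination (f ^ (2 - 1) * derivative F f) * h2

/-- **Con.** -/
theorem con {Om : Type} [Field Om] [CharZero Om] {V : ValuationSubring Om} {S : Subfield Om}
    {ϖ : Om} (hU : Unif V S ϖ) (h2 : (2 : Om)⁻¹ ∉ V) {δ : Om} (hδ0 : δ ≠ 0)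
    (hδ1 : 2 / δ ∈ V) (hδ2 : δ / 2 ∉ V) {y s Q1 Q2 : Om⟦X⟧} (vy : ∀ n, coeff n y ∈ V)
    (vs : ∀ n, coeff n s ∈ V) (hy : coeff 1 y ≠ 0) (hy' : (coeff 1 y)⁻¹ ∈ V)
    (sD : ∀ n, coeff n (Q1 - s * Q2) ∈ S) (sQ2 : ∀ n, coeff n Q2 ∈ S)
    (vD : ∀ n, coeff n (Q1 - s * Q2) ∈ V) (vQ2 : ∀ n, coeff n Q2 ∈ V) (hQ2 : Q2 ≠ 0)
    (heq : Q1 ^ 2 = (s ^ 2 - 2 * C δ * y) * Q2 ^ 2) : False := by
  have hy0 : y ≠ 0 := by
    rintro rfl
    rw [map_zero] at hy
    exact hy rfl
  have hC0 : ∀ {x : Om}, x ≠ 0 → (C x : Om⟦X⟧) ≠ 0 := fun hx =>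
    (map_ne_zero_iff _ C_injective).2 hx
  have h2' : (2 : Om⟦X⟧) = C 2 := (map_ofNat _ 2).symm
  obtain ⟨D, hD⟩ : ∃ D, D = Q1 - s * Q2 := ⟨_, rfl⟩
  have hrel : D * (D + 2 * s * Q2) = -(2 * C δ * y * Q2 ^ 2) := by
    rw [hD]
    linear_combination heq
  have hD0 : D ≠ 0 := by
    rintro h
    rw [h, zero_mul] at hrel
    have h3 : 2 * C δ * y * Q2 ^ 2 = 0 := by linear_combination hrel
    rw [h2'] at h3
    exact mul_ne_zero (mul_ne_zero (mul_ne_zero (hC0 two_ne_zero) (hC0 hδ0)) hy0)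
      (pow_ne_zero 2 hQ2) h3
  rw [← hD] at sD vD
  obtain ⟨c1, hc1, vc1, n1, hn1, hn1'⟩ := tNormQ Om V S ϖ hU D hD0 sD vD
  obtain ⟨c2, hc2, vc2, n2, hn2, hn2'⟩ := tNormQ Om V S ϖ hU Q2 hQ2 sQ2 vQ2
  -- lifts
  have hinj : Function.Injective V.subtype := Subtype.val_injective
  obtain ⟨y, rfl⟩ := Con_lift V y vy
  obtain ⟨s, rfl⟩ := Con_lift V s vs
  obtain ⟨d1, hd1⟩ := Con_lift V (C c1 * D) (fun n => by rw [coeff_C_mul]; exact vc1 n)
  obtain ⟨e, he⟩ := Con_lift V (C c2 * Q2) (fun n => by rw [coeff_C_mul]; exact vc2 n)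
  -- the residue field
  have h2F : (2 : IsLocalRing.ResidueField V) = 0 := by
    have h4 : IsLocalRing.residue V (2 : V) = 0 := by
      apply Con_res_zero
      exact h2
    rwa [map_ofNat] at h4
  have h2X : (2 : (IsLocalRing.ResidueField V)⟦X⟧) = 0 := by
    rw [← map_ofNat (C (R := IsLocalRing.ResidueField V)), h2F, map_zero]
  -- the data over the residue field
  have red_ne : ∀ (f : V⟦X⟧) (n : ℕ), coeff n (map V.subtype f) ≠ 0 →
      (coeff n (map V.subtype f))⁻¹ ∈ V → coeff n (map (IsLocalRing.residue V) f) ≠ 0 := by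
    intro f n h3 h4
    rw [coeff_map] at h3 h4 ⊢
    exact Con_res_ne V h3 h4
  have hry1 := red_ne y 1 hy hy'
  have hry : map (IsLocalRing.residue V) y ≠ 0 := by
    intro h
    rw [h, map_zero] at hry1
    exact hry1 rfl
  have hdy : derivative _ (map (IsLocalRing.residue V) y) ≠ 0 := by
    intro h
    have h1 := coeff_derivative (map (IsLocalRing.residue V) y) 0
    rw [h, map_zero, Nat.cast_zero, zero_add, zero_add, mul_one] at h1
    exact hry1 h1.symm
  have hr1 : map (IsLocalRing.residue V) d1 ≠ 0 := by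
    intro h
    refine red_ne d1 n1 ?_ ?_ (by rw [h, map_zero])
    · rw [hd1, coeff_C_mul]
      exact hn1
    · rw [hd1, coeff_C_mul]
      exact hn1'
  have hr2 : map (IsLocalRing.residue V) e ≠ 0 := by
    intro h
    refine red_ne e n2 ?_ ?_ (by rw [h, map_zero])
    · rw [he, coeff_C_mul]
      exact hn2
    · rw [he, coeff_C_mul]
      exact hn2'
  -- the relation for the normalised series
  obtain ⟨d, hd⟩ : ∃ d, d = c2 / c1 := ⟨_, rfl⟩
  have hd0 : d ≠ 0 := by
    rw [hd]
    exact div_ne_zero hc2 hc1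
  have hdc : (C d : Om⟦X⟧) * C c1 = C c2 := by
    rw [← map_mul, hd, div_mul_cancel₀ _ hc1]
  have hrel2 : C d * map V.subtype d1 * (C d * map V.subtype d1 +
      2 * map V.subtype s * map V.subtype e) =
      -(2 * C δ * map V.subtype y * map V.subtype e ^ 2) := by
    rw [hd1, he, ← mul_assoc (C d) (C c1) D, hdc]
    linear_combination C c2 ^ 2 * hrel
  by_cases ht : d / 2 ∈ V
  · obtain ⟨p, hp⟩ : ∃ p : V, V.subtype p = d / 2 := ⟨⟨_, ht⟩, rfl⟩
    obtain ⟨r, hr⟩ : ∃ r : V, V.subtype r = 2 / δ := ⟨⟨_, hδ1⟩, rfl⟩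
    have hr0 : IsLocalRing.residue V r = 0 := by
      apply Con_res_zero
      have e1 : (r : Om) = 2 / δ := hr
      rw [e1, inv_div]
      exact hδ2
    have e1 : (C d : Om⟦X⟧) = 2 * C (V.subtype p) := by
      rw [hp, h2', ← map_mul]
      congr 1
      field_simp
    have e2 : (2 : Om⟦X⟧) = C δ * C (V.subtype r) := by
      rw [hr, h2', ← map_mul]
      congr 1
      field_simp
    have h3 : C r * (C p * d1) * (C p * d1 + s * e) = -(y * e ^ 2) := by
      apply map_injective V.subtype hinj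
      simp only [map_mul, map_add, map_pow, map_neg, map_C]
      apply mul_left_cancel₀ (mul_ne_zero (mul_ne_zero (hC0 two_ne_zero) (hC0 hδ0))
        (one_ne_zero (α := Om⟦X⟧)))
      rw [e1] at hrel2
      rw [← h2']
      linear_combination hrel2 - (2 * C (V.subtype p) * map V.subtype d1 *
        (C (V.subtype p) * map V.subtype d1 + map V.subtype s * map V.subtype e)) * e2
    have h4 := congrArg (map (IsLocalRing.residue V)) h3
    simp only [map_mul, map_add, map_pow, map_neg, map_C] at h4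
    rw [hr0, map_zero, zero_mul, zero_mul] at h4
    exact mul_ne_zero hry (pow_ne_zero 2 hr2) (neg_eq_zero.1 h4.symm)
  · have ht1 : 2 / d ∈ V := by
      have h5 := (V.mem_or_inv_mem (d / 2)).resolve_left ht
      rwa [inv_div] at h5
    obtain ⟨p, hp⟩ : ∃ p : V, V.subtype p = 2 / d := ⟨⟨_, ht1⟩, rfl⟩
    have hp0 : IsLocalRing.residue V p = 0 := by
      apply Con_res_zero
      have e1 : (p : Om) = 2 / d := hp
      rw [e1, inv_div]
      exact ht
    have e1 : (2 : Om⟦X⟧) = C d * C (V.subtype p) := by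
      rw [hp, h2', ← map_mul]
      congr 1
      field_simp
    have hrel3 : C d ^ 2 * (map V.subtype d1 * (map V.subtype d1 +
        C (V.subtype p) * map V.subtype s * map V.subtype e)) =
        -(2 * C δ * map V.subtype y * map V.subtype e ^ 2) := by
      rw [← hrel2]
      linear_combination (-(C d * map V.subtype d1 * map V.subtype s * map V.subtype e)) * e1
    obtain ⟨ε, hε⟩ : ∃ ε, ε = d ^ 2 / (2 * δ) := ⟨_, rfl⟩
    have hε0 : ε ≠ 0 := by
      rw [hε]
      exact div_ne_zero (pow_ne_zero 2 hd0) (mul_ne_zero two_ne_zero hδ0)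
    have e2 : (C d : Om⟦X⟧) ^ 2 = 2 * C δ * C ε := by
      rw [hε, h2', ← map_mul, ← map_mul, ← map_pow]
      congr 1
      field_simp
    have hrel4 : C ε * (map V.subtype d1 * (map V.subtype d1 +
        C (V.subtype p) * map V.subtype s * map V.subtype e)) =
        -(map V.subtype y * map V.subtype e ^ 2) := by
      apply mul_left_cancel₀ (mul_ne_zero (hC0 two_ne_zero) (hC0 hδ0))
      rw [← h2']
      rw [e2] at hrel3
      linear_combination hrel3
    by_cases hv : ε ∈ V
    · obtain ⟨ε', rfl⟩ : ∃ p : V, V.subtype p = ε := ⟨⟨_, hv⟩, rfl⟩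
      have h3 : C ε' * (d1 * (d1 + C p * s * e)) = -(y * e ^ 2) := by
        apply map_injective V.subtype hinj
        simpa only [map_mul, map_add, map_pow, map_neg, map_C] using hrel4
      have h4 := congrArg (map (IsLocalRing.residue V)) h3
      simp only [map_mul, map_add, map_pow, map_neg, map_C] at h4
      rw [hp0, map_zero, zero_mul, zero_mul, add_zero] at h4
      have h5 := congrArg (derivative (IsLocalRing.ResidueField V)) h4
      rw [← pow_two, map_neg, Derivation.leibniz, Derivation.leibniz, deriv_sq h2X,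
        deriv_sq h2X, derivative_C] at h5
      simp only [smul_eq_mul, mul_zero, zero_add, add_zero] at h5
      have h6 : map (IsLocalRing.residue V) e ^ 2 *
          derivative _ (map (IsLocalRing.residue V) y) = 0 := by
        linear_combination h5
      exact mul_ne_zero (pow_ne_zero 2 hr2) hdy h6
    · have hv1 : ε⁻¹ ∈ V := (V.mem_or_inv_mem ε).resolve_left hv
      obtain ⟨q, hq⟩ : ∃ q : V, V.subtype q = ε⁻¹ := ⟨⟨_, hv1⟩, rfl⟩
      have hq0 : IsLocalRing.residue V q = 0 := by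
        apply Con_res_zero
        have e1 : (q : Om) = ε⁻¹ := hq
        rw [e1, inv_inv]
        exact hv
      have h3 : d1 * (d1 + C p * s * e) = -(C q * (y * e ^ 2)) := by
        apply map_injective V.subtype hinj
        simp only [map_mul, map_add, map_pow, map_neg, map_C]
        have h7 : (C ε : Om⟦X⟧) * C (V.subtype q) = 1 := by
          rw [hq, ← map_mul, mul_inv_cancel₀ hε0, map_one]
        linear_combination C (V.subtype q) * hrel4 - (map V.subtype d1 * (map V.subtype d1 +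
          C (V.subtype p) * map V.subtype s * map V.subtype e)) * h7
      have h4 := congrArg (map (IsLocalRing.residue V)) h3
      simp only [map_mul, map_add, map_pow, map_neg, map_C] at h4
      rw [hp0, hq0, map_zero, zero_mul, zero_mul, zero_mul, add_zero, neg_zero] at h4
      exact mul_ne_zero hr1 hr1 h4

end DN.F4
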