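import Pool.Agent.Lib.DI.F4.Bas

/-!
# Theorem DN (`p = 2`), part F, generic part: the curves `y² + a xy + b y = x³`

`T = -x/y`, `W = -1/y`, so `x = T/W`, `y = -1/W` and `W = T³ + a T W + b W²` (`CEq a b T W`).
`W = X³ w`, `w = wS a b`.  The composition `cs f g = f ∘ g` and its calculus, `In`, `InM` are in `DI/F4`.
-/

set_option autoImplicit false

namespace DN.F4

open PowerSeries DI.F4

/-- the equation of the curve in the coordinates `T`, `W` -/
def CEq {R : Type} [CommRing R] (a b : R) (T W : R⟦X⟧) : Prop :=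
  W = T ^ 3 + C a * T * W + C b * W ^ 2

/-! ## The series `w` -/

section w

variable {R : Type} [CommRing R] (a b : R)

private noncomputable def ph (y : R⟦X⟧) : R⟦X⟧ :=
  1 + C a * (X * y) + C b * (X ^ 3 * y ^ 2)

private noncomputable def sq : ℕ → R⟦X⟧
  | 0 => 0
  | k + 1 => ph a b (sq k)

private theorem ph_sub (y z : R⟦X⟧) : ph a b y - ph a b z =
    X * ((y - z) * (C a + C b * (X ^ 2 * (y + z)))) := by
  unfold ph
  ring

private theorem sq_dvd (k : ℕ) : (X : R⟦X⟧) ^ k ∣ sq a b (k + 1) - sq a b k := by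
  induction k with
  | zero => exact ⟨_, (one_mul _).symm⟩
  | succ k ih =>
    obtain ⟨e, he⟩ := ih
    change X ^ (k + 1) ∣ ph a b (sq a b (k + 1)) - ph a b (sq a b k)
    rw [ph_sub, he]
    exact ⟨e * (C a + C b * (X ^ 2 * (sq a b (k + 1) + sq a b k))), by ring⟩

private theorem sq_coeff {n k : ℕ} (h : n < k) :
    coeff n (sq a b k) = coeff n (sq a b (n + 1)) := by
  obtain ⟨m, rfl⟩ : ∃ m, k = n + 1 + m := ⟨k - (n + 1), by omega⟩
  clear h
  induction m with
  | zero => rfl
  | succ m ih =>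
    rw [← ih]
    obtain ⟨e, he⟩ := sq_dvd a b (n + 1 + m)
    have h1 : sq a b (n + 1 + (m + 1)) = sq a b (n + 1 + m) + X ^ (n + 1 + m) * e := by
      rw [← he]
      ring_nf
    rw [h1, map_add, coeff_X_pow_mul', if_neg (by omega), add_zero]

/-- the series `w` of the curve with the coefficients `a`, `b` -/
noncomputable def wS : R⟦X⟧ := mk fun n => coeff n (sq a b (n + 1))

private theorem wS_dvd (k : ℕ) : (X : R⟦X⟧) ^ k ∣ wS a b - sq a b k := by
  rw [X_pow_dvd_iff]
  intro n hn
  rw [map_sub, wS, coeff_mk, sq_coeff a b hn, sub_self]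

theorem wS_eq : wS a b = 1 + C a * (X * wS a b) + C b * (X ^ 3 * wS a b ^ 2) := by
  have h1 : ∀ k : ℕ, (X : R⟦X⟧) ^ k ∣ wS a b - ph a b (wS a b) := by
    intro k
    have h2 : (X : R⟦X⟧) ^ k ∣ wS a b - sq a b (k + 1) :=
      (pow_dvd_pow X (Nat.le_succ k)).trans (wS_dvd a b (k + 1))
    have h3 : (X : R⟦X⟧) ^ k ∣ ph a b (wS a b) - ph a b (sq a b k) := by
      obtain ⟨e, he⟩ := wS_dvd a b k
      rw [ph_sub, he]
      exact ⟨X * (e * (C a + C b * (X ^ 2 * (wS a b + sq a b k)))), by ring⟩
    have h4 : wS a b - ph a b (wS a b) =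
        (wS a b - sq a b (k + 1)) - (ph a b (wS a b) - ph a b (sq a b k)) := by
      change wS a b - ph a b (wS a b) =
        (wS a b - ph a b (sq a b k)) - (ph a b (wS a b) - ph a b (sq a b k))
      ring
    rw [h4]
    exact dvd_sub h2 h3
  have h5 : wS a b - ph a b (wS a b) = 0 := by
    ext n
    have h6 := (X_pow_dvd_iff).1 (h1 (n + 1)) n (Nat.lt_succ_self n)
    rw [h6, map_zero]
  exact sub_eq_zero.1 h5

theorem wS_const : constantCoeff (wS a b) = 1 := by
  have h := congrArg constantCoeff (wS_eq a b)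
  simpa using h

/-- uniqueness -/
theorem wS_uniq {y : R⟦X⟧} (h : y = 1 + C a * (X * y) + C b * (X ^ 3 * y ^ 2)) :
    y = wS a b := by
  have h1 := wS_eq a b
  have h2 : (y - wS a b) * (1 - X * (C a + C b * (X ^ 2 * (y + wS a b)))) = 0 := by
    linear_combination h - h1
  have h3 : IsUnit (1 - X * (C a + C b * (X ^ 2 * (y + wS a b)))) := by
    rw [isUnit_iff_constantCoeff]
    simp
  exact sub_eq_zero.1 ((h3.mul_left_eq_zero).1 h2)

theorem map_wS {S : Type} [CommRing S] (φ : R →+* S) : map φ (wS a b) = wS (φ a) (φ b) := by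
  apply wS_uniq
  have h := congrArg (map φ) (wS_eq a b)
  simpa only [map_add, map_mul, map_pow, map_one, map_X, map_C] using h

/-- `P = 1 - a X - 2 b X³ w` -/
noncomputable def PS : R⟦X⟧ := 1 - C a * X - 2 * (C b * (X ^ 3 * wS a b))

theorem PS_const : constantCoeff (PS a b) = 1 := by
  simp [PS]

/-- the invariant differential `om = 1 / P` -/
noncomputable def omS : R⟦X⟧ := invOfUnit (PS a b) 1

theorem PS_omS : PS a b * omS a b = 1 :=
  mul_invOfUnit (PS a b) 1 (by rw [PS_const, Units.val_one])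

theorem omS_const : constantCoeff (omS a b) = 1 := by
  have h := congrArg constantCoeff (PS_omS a b)
  rwa [map_mul, PS_const, one_mul, map_one] at h

theorem map_PS {S : Type} [CommRing S] (φ : R →+* S) : map φ (PS a b) = PS (φ a) (φ b) := by
  simp only [PS, map_sub, map_mul, map_pow, map_one, map_X, map_C, map_ofNat, map_wS]

theorem map_omS {S : Type} [CommRing S] (φ : R →+* S) : map φ (omS a b) = omS (φ a) (φ b) := by
  have h1 := congrArg (map φ) (PS_omS a b)
  rw [map_mul, map_PS, map_one] at h1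
  have h2 := PS_omS (φ a) (φ b)
  calc map φ (omS a b) = map φ (omS a b) * (PS (φ a) (φ b) * omS (φ a) (φ b)) := by
        rw [h2, mul_one]
    _ = (PS (φ a) (φ b) * map φ (omS a b)) * omS (φ a) (φ b) := by ring
    _ = omS (φ a) (φ b) := by rw [h1, one_mul]

/-- `T³ w(T)` is the only solution `W` of `CEq a b T W` with constant coefficient `0`. -/
theorem wSol {T : R⟦X⟧} (hT : constantCoeff T = 0) :
    CEq a b T (T ^ 3 * cs (wS a b) T) ∧
    ∀ Y Z : R⟦X⟧, constantCoeff Y = 0 → constantCoeff Z = 0 → CEq a b T Y → CEq a b T Z →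
      Y = Z := by
  refine ⟨?_, fun Y Z hY hZ h1 h2 => ?_⟩
  · have h := congrArg (fun f => cs f T) (wS_eq a b)
    have h3 : cs (wS a b) T =
        1 + C a * (T * cs (wS a b) T) + C b * (T ^ 3 * cs (wS a b) T ^ 2) := by
      refine h.trans ?_
      simp only [cs_add hT, cs_mul hT, cs_pow hT, cs_X hT, cs_one, cs_C]
    unfold CEq
    linear_combination T ^ 3 * h3
  · have h3 : (Y - Z) * (1 - C a * T - C b * (Y + Z)) = 0 := by
      unfold CEq at h1 h2
      linear_combination h1 - h2
    have h4 : IsUnit (1 - C a * T - C b * (Y + Z)) := by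
      rw [isUnit_iff_constantCoeff]
      simp [hT, hY, hZ]
    exact sub_eq_zero.1 ((h4.mul_left_eq_zero).1 h3)

theorem wS_der_eq : derivative R (wS a b) = C a * (wS a b + X * derivative R (wS a b)) +
      C b * (3 * X ^ 2 * wS a b ^ 2 + 2 * X ^ 3 * wS a b * derivative R (wS a b)) := by
  have h1 := congrArg (derivative R) (wS_eq a b)
  simp only [map_add, Derivation.leibniz, Derivation.leibniz_pow, Derivation.map_one_eq_zero,
    smul_eq_mul, nsmul_eq_mul, derivative_C] at h1
  have hX : derivative R (X : R⟦X⟧) = 1 := derivative_X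
  rw [hX] at h1
  refine h1.trans ?_
  push_cast
  ring

/-- `dW = (3 T² + a W) om dT` -/
theorem wDer : 3 * wS a b + X * derivative R (wS a b) = (3 + C a * (X * wS a b)) * omS a b := by
  have h1 := wS_der_eq a b
  have h2 := PS_omS a b
  have h4 : (3 * wS a b + X * derivative R (wS a b)) * PS a b = 3 + C a * (X * wS a b) := by
    have h3 := wS_eq a b
    unfold PS
    linear_combination X * h1 + 3 * h3
  linear_combination (-(3 * wS a b + X * derivative R (wS a b))) * h2 + omS a b * h4

theorem star {T : R⟦X⟧} (hT : constantCoeff T = 0) :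
    derivative R (T ^ 3 * cs (wS a b) T) =
      (3 * T ^ 2 + C a * (T ^ 3 * cs (wS a b) T)) * (cs (omS a b) T * derivative R T) := by
  have h1 := congrArg (fun f => cs f T) (wDer a b)
  simp only [cs_add hT, cs_mul hT, cs_X hT, cs_C] at h1
  have h0 : cs (3 : R⟦X⟧) T = 3 := cs_ofNat T 3
  rw [h0] at h1
  rw [Derivation.leibniz, Derivation.leibniz_pow, d_cs hT]
  simp only [smul_eq_mul, nsmul_eq_mul]
  push_cast
  linear_combination (derivative R T * T ^ 2) * h1

end w

/-! ## The logarithm -/

section lg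

variable {L : Type} [Field L] (a b : L)

/-- the logarithm `∑ c_m X^m / m` of the curve, `c_m` = coefficient of `X^(m-1)` in `om` -/
noncomputable def lgS : L⟦X⟧ := mk fun m => coeff (m - 1) (omS a b) / m

theorem lgS_const : constantCoeff (lgS a b) = 0 := by
  rw [← coeff_zero_eq_constantCoeff_apply, lgS, coeff_mk, Nat.cast_zero, div_zero]

theorem coeff_one_lgS : coeff 1 (lgS a b) = 1 := by
  rw [lgS, coeff_mk, Nat.cast_one, div_one, Nat.sub_self, coeff_zero_eq_constantCoeff_apply,
    omS_const]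

theorem d_lgS [CharZero L] : derivative L (lgS a b) = omS a b := by
  ext n
  rw [coeff_derivative, lgS, coeff_mk, Nat.add_sub_cancel]
  have h : ((n : L) + 1) ≠ 0 := by exact_mod_cast Nat.succ_ne_zero n
  push_cast
  field_simp

variable {a b}

/-- A point `(T, W)` of the curve whose differential is `du`: `lg(T) = u`. -/
theorem lg_of_diff [CharZero L] {T W u : L⟦X⟧}
    (hT : constantCoeff T = 0) (hW : constantCoeff W = 0) (hu : constantCoeff u = 0) (hT0 : T ≠ 0)
    (hE : CEq a b T W)
    (hD : derivative L T * W - T * derivative L W =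
      (C a * T - 2 + C b * W) * W * derivative L u) :
    cs (lgS a b) T = u ∧ W = T ^ 3 * cs (wS a b) T := by
  obtain ⟨h1, h2⟩ := wSol a b hT
  have hc : constantCoeff (T ^ 3 * cs (wS a b) T) = 0 := by
    rw [map_mul, map_pow, hT, zero_pow (by norm_num), zero_mul]
  have hWe : W = T ^ 3 * cs (wS a b) T := h2 W _ hW hc hE h1
  have hS := star a b hT
  rw [← hWe] at hS
  have hw : constantCoeff (cs (wS a b) T) = 1 := by
    rw [constantCoeff_cs hT, wS_const]
  have hw0 : cs (wS a b) T ≠ 0 := by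
    intro h
    rw [h, map_zero] at hw
    exact zero_ne_one hw
  have hW0 : W ≠ 0 := by
    rw [hWe]
    exact mul_ne_zero (pow_ne_zero 3 hT0) hw0
  have hT2 : C a * T - 2 + C b * W ≠ 0 := by
    intro h
    have h3 := congrArg constantCoeff h
    rw [map_add, map_sub, map_mul, map_mul, hT, hW, map_zero, map_ofNat, mul_zero, mul_zero,
      add_zero, zero_sub, neg_eq_zero] at h3
    exact two_ne_zero h3
  have hP : (1 - C a * T - 2 * (C b * W)) * cs (omS a b) T = 1 := by
    have h3 := congrArg (fun f => cs f T) (PS_omS a b)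
    simp only [PS, cs_mul hT, cs_sub hT, cs_pow hT, cs_X hT, cs_one, cs_C] at h3
    have h0 : cs (2 : L⟦X⟧) T = 2 := cs_ofNat T 2
    rw [h0, ← hWe] at h3
    exact h3
  have hd : derivative L u = cs (omS a b) T * derivative L T := by
    have h3 : (C a * T - 2 + C b * W) * W * derivative L u =
        (C a * T - 2 + C b * W) * W * (cs (omS a b) T * derivative L T) := by
      rw [← hD, hS]
      unfold CEq at hE
      linear_combination (-(derivative L T * W)) * hP +
        (3 * (cs (omS a b) T * derivative L T)) * hE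
    exact mul_left_cancel₀ (mul_ne_zero hT2 hW0) h3
  refine ⟨derivative.ext ?_ ?_, hWe⟩
  · rw [d_cs hT, d_lgS, hd]
  · rw [constantCoeff_cs hT, lgS_const, hu]

end lg

/-! ## Integrality -/

section int

variable {L : Type} [Field L] {O : Subring L} {a b : L}

theorem In.wS (ha : a ∈ O) (hb : b ∈ O) : In O (wS a b) := fun n => by
  have h := congrArg (coeff n) (map_wS (⟨a, ha⟩ : O) ⟨b, hb⟩ O.subtype)
  rw [coeff_map] at h
  have h1 : DN.F4.wS a b = DN.F4.wS (O.subtype ⟨a, ha⟩) (O.subtype ⟨b, hb⟩) := rfl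
  rw [h1, ← h]
  exact Subtype.prop _

theorem In.omS (ha : a ∈ O) (hb : b ∈ O) : In O (omS a b) := fun n => by
  have h := congrArg (coeff n) (map_omS (⟨a, ha⟩ : O) ⟨b, hb⟩ O.subtype)
  rw [coeff_map] at h
  have h1 : DN.F4.omS a b = DN.F4.omS (O.subtype ⟨a, ha⟩) (O.subtype ⟨b, hb⟩) := rfl
  rw [h1, ← h]
  exact Subtype.prop _

/-- a series `f = X + ..` over `O` has an inverse over `O`: `f(T) ∈ O⟦X⟧` gives `T ∈ O⟦X⟧` -/
theorem In.of_cs {f T : L⟦X⟧} (hf : In O f) (hf0 : constantCoeff f = 0) (hf1 : coeff 1 f = 1)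
    (hT : constantCoeff T = 0) (h : In O (cs f T)) : In O T := by
  obtain ⟨g, rfl⟩ : ∃ g : (O)⟦X⟧, map O.subtype g = f := by
    refine ⟨mk fun n => ⟨coeff n f, hf n⟩, ?_⟩
    ext n
    rw [coeff_map, coeff_mk]
    rfl
  have hinj : Function.Injective O.subtype := Subtype.val_injective
  have g0 : constantCoeff g = 0 := by
    rw [cc_map] at hf0
    exact hinj (by rw [hf0, map_zero])
  have g1 : coeff 1 g = 1 := by
    rw [coeff_map] at hf1
    exact hinj (by rw [hf1, map_one])
  have gu : IsUnit (coeff 1 g) := by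
    rw [g1]
    exact isUnit_one
  have e1 : cs (substInvOfIsUnit g gu) g = X := subst_substInvOfIsUnit_left g g0 _
  have e0 : constantCoeff (substInvOfIsUnit g gu) = 0 := constantCoeff_substInvOfIsUnit _ _
  have e2 : cs (map O.subtype (substInvOfIsUnit g gu)) (map O.subtype g) = X := by
    rw [← map_cs O.subtype g0, e1, map_X]
  have hh0 : constantCoeff (cs (map O.subtype g) T) = 0 := by
    rw [constantCoeff_cs hT, hf0]
  have e3 : cs (map O.subtype (substInvOfIsUnit g gu)) (cs (map O.subtype g) T) = T := by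
    rw [← cs_cs hf0 hT, e2, cs_X hT]
  rw [← e3]
  refine In.cs ?_ h hh0
  intro n
  rw [coeff_map]
  exact Subtype.prop _

end int

end DN.F4
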